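import Pool.Agent.Q66.SH.Fin2

/-!
# Isometric embeddings between infinite-dimensional Schatten classes

Definitions (file `Pool/Agent/Q66/SH/Defs.lean`), for operators on a complex Hilbert space `H`:

* `HasSV T s`: `s` is the sequence of singular values of `T`: decreasing, nonnegative, tending to `0`,
  and `T x = ∑ s_j ⟨e_j, x⟩ f_j` for all `x`, with orthonormal sequences `e`, `f`;
* `InS p T r`: `T` belongs to the Schatten class `S_p` and `‖T‖_p = r`;
* `Embeds H q p`: there is a map `J`, additive and homogeneous on `S_q(H)`, which maps `S_q(H)` into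
  `S_p(H)` with `‖J T‖_p = ‖T‖_q`.

The theorem, for a separable infinite dimensional complex Hilbert space `H`:

* a bounded operator has a sequence of singular values if and only if it is compact, and the sequence
  is unique; `S_p(H)`, `p > 0`, is closed under sums and multiples, and `‖c T‖_p = |c| ‖T‖_p`;
* for `0 < p, q ≤ ∞`, `p ≠ q`, the class `S_q(H)` embeds isometrically into `S_p(H)` if and only if
  `q = 2`.
-/

set_option autoImplicit false

open Pool.Agent.Q66.SH
open scoped ENNReal

namespace Pool.Agent.Results.MP_dcad15_an.OnlyHilbertSchmidt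

theorem result (H : Type) [NormedAddCommGroup H] [InnerProductSpace ℂ H] [CompleteSpace H]
    [TopologicalSpace.SeparableSpace H] (hH : ¬ FiniteDimensional ℂ H) :
    (∀ T : H →L[ℂ] H, IsCompactOperator T ↔ ∃ s, HasSV T s) ∧
    (∀ (T : H →L[ℂ] H) (s s' : ℕ → ℝ), HasSV T s → HasSV T s' → s = s') ∧
    (∀ p : ℝ≥0∞, p ≠ 0 →
      (∀ (S T : H →L[ℂ] H) (r t : ℝ), InS p S r → InS p T t → ∃ u, InS p (S + T) u) ∧
      ∀ (c : ℂ) (T : H →L[ℂ] H) (t : ℝ), InS p T t → InS p (c • T) (‖c‖ * t)) ∧
    ∀ p q : ℝ≥0∞, p ≠ 0 → q ≠ 0 → p ≠ q → (Embeds H q p ↔ q = 2) :=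
  Pool.Agent.Q66.SH.final H hH

end Pool.Agent.Results.MP_dcad15_an.OnlyHilbertSchmidt
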